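import Pool.Agent.W279.TriR.Final

/-!
# The real closure of the rational points of the triquadratic surfaces (helper279)

`X ⊂ P¹ × P¹ × P¹` is the surface `F = 0`, where `F` is a polynomial of tridegree `(2,2,2)` over a
number field `K` with a real embedding `σ`.  A point of the product of three projective lines is
given by three nonzero vectors.  The affine part of `X` is the surface `F(x₀,1,x₁,1,x₂,1) = 0`
in the affine space: every polynomial of degree at most two in each of three variables arises.

If `X` has finitely many singular points and contains no fibre of the three projections to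
`P¹ × P¹`, then the closure of `X(K)` in `X(ℝ)` is open in `X(ℝ)` away from the singular points
and a finite set; if `X(ℝ)` has no singular point, then the closure of the rational points of
the affine surface is semialgebraic: it is cut out by one inequality `q > 0`, up to finitely
many rational points.
-/

set_option autoImplicit false

namespace Pool.Agent.Results.MP_42de19_nt.TriquadraticClosure

open MvPolynomial Pool.Agent.W279.Tri Pool.Agent.W279.TriR

universe u

/-- The cone over `X(K)` in the real vector space: all real representatives of the `K`-rational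
points of `F = 0`. -/
def ratPoints {K : Type u} [Field K] (F : MvPolynomial (Fin 3 × Fin 2) K) (σ : K →+* ℝ) :
    Set (Fin 3 → Fin 2 → ℝ) :=
  {x | ∃ (y : Fin 3 → Fin 2 → K) (d : Fin 3 → ℝ), (∀ i, y i ≠ 0) ∧ (∀ i, d i ≠ 0) ∧
    eval (fun q => y q.1 q.2) F = 0 ∧ x = fun i a => d i * σ (y i a)}

/-- The point `(x₀ : 1, x₁ : 1, x₂ : 1)`. -/
def aff {R : Type*} [One R] (x : Fin 3 → R) (q : Fin 3 × Fin 2) : R :=
  if q.2 = 0 then x q.1 else 1

/-- **The real closure of the rational points of the triquadratic surfaces.** -/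
theorem result :
    ∀ (K : Type u) [Field K] [NumberField K] (σ : K →+* ℝ)
      (F : MvPolynomial (Fin 3 × Fin 2) K),
      -- `F` has the tridegree `(2,2,2)`
      (∀ m ∈ F.support, ∀ i : Fin 3, m (i, 0) + m (i, 1) = 2) →
      -- no fibre of the projections to two of the factors lies on the surface
      (∀ (i : Fin 3) (p : Fin 3 → Fin 2 → AlgebraicClosure K), (∀ j, p j ≠ 0) →
        ∃ w : Fin 2 → AlgebraicClosure K,
          aeval (fun q : Fin 3 × Fin 2 => Function.update p i w q.1 q.2) F ≠ 0) →
      -- the surface has only finitely many singular points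
      (∃ S : Set (Fin 3 → Fin 2 → AlgebraicClosure K), S.Finite ∧
        ∀ p : Fin 3 → Fin 2 → AlgebraicClosure K, (∀ i, p i ≠ 0) →
          (∀ q : Fin 3 × Fin 2, aeval (fun r : Fin 3 × Fin 2 => p r.1 r.2) (pderiv q F) = 0) →
          ∃ s ∈ S, ∀ i, ∃ t : AlgebraicClosure K, p i = t • s i) →
      -- (1) then, with a finite set `T` of rational points, the closure of the rational points
      -- contains a neighbourhood in `X(ℝ)` of each of its points which is neither singular nor
      -- in `T`;
      (∃ T : Set (Fin 3 → Fin 2 → K), T.Finite ∧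
        (∀ P ∈ T, (∀ i, P i ≠ 0) ∧ eval (fun q => P q.1 q.2) F = 0) ∧
        ∀ x : Fin 3 → Fin 2 → ℝ, (∀ i, x i ≠ 0) → x ∈ closure (ratPoints F σ) →
          (∃ q, eval₂ σ (fun r : Fin 3 × Fin 2 => x r.1 r.2) (pderiv q F) ≠ 0) →
          (∃ P ∈ T, ∃ d : Fin 3 → ℝ, (∀ i, d i ≠ 0) ∧ x = fun i a => d i * σ (P i a)) ∨
          ∃ U ∈ nhds x, ∀ y ∈ U, eval₂ σ (fun r : Fin 3 × Fin 2 => y r.1 r.2) F = 0 →
            y ∈ closure (ratPoints F σ)) ∧
      -- (2) if `X(ℝ)` has no singular point, then the closure in `ℝ³` of the `K`-rational zeros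
      -- of `F(x₀,1,x₁,1,x₂,1)` is semialgebraic
      ((∀ x : Fin 3 → Fin 2 → ℝ, (∀ i, x i ≠ 0) →
          ∃ q, eval₂ σ (fun r : Fin 3 × Fin 2 => x r.1 r.2) (pderiv q F) ≠ 0) →
        ∃ (q : MvPolynomial (Fin 3) ℚ) (T : Set (Fin 3 → K)), T.Finite ∧
          (∀ r ∈ T, eval (aff r) F = 0) ∧
          (∀ x : Fin 3 → ℝ, eval₂ σ (aff x) F = 0 → aeval x q ≠ 0) ∧
          closure {x : Fin 3 → ℝ | ∃ r : Fin 3 → K, eval (aff r) F = 0 ∧ x = fun i => σ (r i)} =
            {x : Fin 3 → ℝ | eval₂ σ (aff x) F = 0 ∧ 0 < aeval x q} ∪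
              (fun r i => σ (r i)) '' T) := by
  intro K _ _ σ F hdeg hl hs
  obtain ⟨c, rfl⟩ := exists_form hdeg
  have hnice := nice_of hl hs
  have haf : ∀ {R : Type _} [Field R] (x : Fin 3 → R), aff x = fun q => af x q.1 q.2 := by
    intro R _ x
    funext ⟨i, a⟩
    fin_cases a <;> simp [aff, af]
  have haf' : ∀ (x : Fin 3 → ℝ), aff x = fun q => af x q.1 q.2 := by
    intro x
    funext ⟨i, a⟩
    fin_cases a <;> simp [aff, af]
  constructor
  · obtain ⟨T, hT, hT1, hd⟩ := dichotomy hnice
    refine ⟨T, hT, fun P hP => ⟨(hT1 P hP).1, ?_⟩, fun x hx hxC hs => ?_⟩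
    · rw [eval_form]
      exact (hT1 P hP).2
    · change x ∈ closure (cone (form c) σ) at hxC
      rw [mem_cone] at hxC
      have hns : ¬SingX (cr c σ) (x 0) (x 1) (x 2) := by
        rw [singX_real]
        push Not
        exact hs
      rcases hd σ x hx (Cl_E hxC) hns hxC with ⟨W, hW, h⟩ | ⟨P, hP, h, -⟩
      · right
        refine ⟨W, hW, fun y hy hE => ?_⟩
        change y ∈ closure (cone (form c) σ)
        rw [mem_cone]
        exact h y hy (by rwa [eval₂_cr] at hE)
      · left
        choose d hd0 hd using h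
        exact ⟨P, hP, d, hd0, funext hd⟩
  · intro hsm
    obtain ⟨q, T, hT, hT1, hq, hcl⟩ := semialg (σ := σ) hnice (fun P hP => by
      rw [singX_real]
      push Not
      exact hsm P hP)
    have e1 : ∀ x : Fin 3 → ℝ, eval₂ σ (aff x) (form c) =
        E (cr c σ) (af x 0) (af x 1) (af x 2) := by
      intro x
      rw [haf', eval₂_cr]
    have e2 : ∀ r : Fin 3 → K, eval (aff r) (form c) = E c (af r 0) (af r 1) (af r 2) := by
      intro r
      rw [haf, eval_form]
    refine ⟨q, T, hT, fun r hr => by rw [e2]; exact hT1 r hr, fun x hx => hq x (by rwa [← e1]), ?_⟩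
    simp only [e1, e2]
    exact hcl

end Pool.Agent.Results.MP_42de19_nt.TriquadraticClosure
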